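import Pool.Agent.Lib.MP_305fdd_al.Su.Count
import Pool.Agent.Lib.MP_305fdd_al.NatBij

/-!
# MP_305fdd_al, surface groups, block PTS: counts of homomorphisms of the quotient `Γ` of `Λ`

`Λ` has the same finite quotients as the surface group, and `Λ → Γ` is a quotient through which all
the homomorphisms to `SL₂(k)`, `k` a finite field of characteristic two, factor.  Then `Γ` has
`m ^ (2 g)` homomorphisms to `ZMod m` for every `m > 0`, and as many homomorphisms to `Perm (Fin 3)`
as the surface group.
-/

set_option autoImplicit false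

namespace Pool.Agent.SuPts

open Pool.Agent.Su Pool.Agent.Lib.MP_305fdd_al

open scoped commutatorElement

/-- all homomorphisms of `Λ` to `SL₂(k)`, `k` a finite field of characteristic two, are trivial on the
kernel of `π` -/
def KerSL {Λ Γ : Type} [Group Λ] [Group Γ] (π : Λ →* Γ) : Prop :=
  ∀ (k : Type) [Field k] [Finite k] [Algebra (ZMod 2) k]
    (r : Λ →* Matrix.SpecialLinearGroup (Fin 2) k), π.ker ≤ r.ker

/-- homomorphisms to subgroups of `SL₂(k)` -/
noncomputable def homEq {Λ Γ : Type} [Group Λ] [Group Γ] {π : Λ →* Γ} (hπ : Function.Surjective π)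
    (hk : KerSL π) (k : Type) [Field k] [Finite k] [Algebra (ZMod 2) k] {Q : Type} [Group Q]
    (ι : Q →* Matrix.SpecialLinearGroup (Fin 2) k) (hι : Function.Injective ι) :
    (Γ →* Q) ≃ (Λ →* Q) :=
  (MonoidHom.liftOfRightInverse π (Function.surjInv hπ) (Function.rightInverse_surjInv hπ)).symm.trans
    (Equiv.subtypeUnivEquiv fun f => by
      intro x hx
      have h1 := hk k (ι.comp f) hx
      rw [MonoidHom.mem_ker] at h1 ⊢
      apply hι
      rw [map_one]
      exact h1)

theorem card_homEq {Λ Γ : Type} [Group Λ] [Group Γ] {π : Λ →* Γ} (hπ : Function.Surjective π)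
    (hk : KerSL π) (k : Type) [Field k] [Finite k] [Algebra (ZMod 2) k] {Q : Type} [Group Q] [Finite Q]
    (ι : Q →* Matrix.SpecialLinearGroup (Fin 2) k) (hι : Function.Injective ι) {g : ℕ}
    (Φ : NatBij Λ (SurfaceGroup g)) : Nat.card (Γ →* Q) = Nat.card (SurfaceGroup g →* Q) := by
  rw [Nat.card_congr (homEq hπ hk k ι hι)]
  exact Nat.card_congr ⟨Φ.toFun Q, Φ.symm.toFun Q, Φ.left_inv Q, Φ.right_inv Q⟩

/-- homomorphisms of the surface group to a commutative group -/
theorem card_hom_comm (g : ℕ) (Q : Type) [CommGroup Q] :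
    Nat.card (SurfaceGroup g →* Q) = Nat.card Q ^ (2 * g) := by
  have h1 : ∀ t : Fin g → Q × Q, (List.ofFn fun i => ⁅(t i).1, (t i).2⁆).prod = 1 := by
    intro t
    have h : (fun i => ⁅(t i).1, (t i).2⁆) = fun _ : Fin g => (1 : Q) := by
      funext i
      exact commutatorElement_eq_one_iff_mul_comm.2 (mul_comm _ _)
    rw [h, List.ofFn_const, List.prod_replicate, one_pow]
  rw [Nat.card_congr ((homEquiv g Q).trans (Equiv.subtypeUnivEquiv h1)), Nat.card_fun,
    Nat.card_prod, Nat.card_eq_fintype_card (α := Fin g), Fintype.card_fin, ← pow_two, ← pow_mul]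

/-! ### embeddings -/

/-- the three non-zero vectors of the plane over `ZMod 2` -/
def vec3 : Fin 3 → Fin 2 → ZMod 2 := ![![1, 0], ![0, 1], ![1, 1]]

/-- the matrix of a permutation of the three vectors -/
def mat3 (σ : Equiv.Perm (Fin 3)) : Matrix (Fin 2) (Fin 2) (ZMod 2) :=
  Matrix.of fun i j => vec3 (σ (Fin.castLE (by omega) j)) i

theorem mat3_det : ∀ σ, (mat3 σ).det = 1 := by decide

theorem mat3_mul : ∀ σ τ, mat3 (σ * τ) = mat3 σ * mat3 τ := by decide

theorem mat3_one : mat3 1 = 1 := by decide

theorem mat3_inj : Function.Injective mat3 := by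
  have h : ∀ σ τ, mat3 σ = mat3 τ → σ = τ := by decide
  exact fun σ τ => h σ τ

/-- the embedding of the symmetric group -/
def emb3 : Equiv.Perm (Fin 3) →* Matrix.SpecialLinearGroup (Fin 2) (ZMod 2) where
  toFun σ := ⟨mat3 σ, mat3_det σ⟩
  map_one' := Subtype.ext mat3_one
  map_mul' σ τ := Subtype.ext (mat3_mul σ τ)

theorem emb3_inj : Function.Injective emb3 := fun _ _ h => mat3_inj (congrArg Subtype.val h)

/-- the diagonal matrices -/
def dg (k : Type) [Field k] : kˣ →* Matrix.SpecialLinearGroup (Fin 2) k where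
  toFun u := ⟨!![(u : k), 0; 0, ((u⁻¹ : kˣ) : k)], by
    rw [Matrix.det_fin_two_of, mul_zero, sub_zero, Units.mul_inv]⟩
  map_one' := by
    apply Subtype.ext
    ext i j
    fin_cases i <;> fin_cases j <;> simp
  map_mul' u v := by
    apply Subtype.ext
    change !![((u * v : kˣ) : k), 0; 0, (((u * v)⁻¹ : kˣ) : k)] =
      !![(u : k), 0; 0, ((u⁻¹ : kˣ) : k)] * !![(v : k), 0; 0, ((v⁻¹ : kˣ) : k)]
    rw [Matrix.mul_fin_two, mul_inv, Units.val_mul, Units.val_mul]
    simp

theorem dg_inj (k : Type) [Field k] : Function.Injective (dg k) := by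
  intro u v h
  have h1 := congrFun (congrFun (congrArg Subtype.val h) 0) 0
  exact Units.ext h1

/-- cyclic groups of odd order in `SL₂` -/
theorem exists_emb (m : ℕ) (hm : Odd m) : ∃ (k : Type) (_ : Field k) (_ : Finite k)
    (_ : Algebra (ZMod 2) k) (ι : Multiplicative (ZMod m) →* Matrix.SpecialLinearGroup (Fin 2) k),
    Function.Injective ι := by
  have hm0 : 0 < m := hm.pos
  have : NeZero m := ⟨hm0.ne'⟩
  -- `m` divides `2 ^ j - 1`
  have hc : Nat.Coprime 2 m := (Nat.coprime_two_left).2 hm
  let j := Nat.totient m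
  have hj : 0 < j := Nat.totient_pos.2 hm0
  have hdvd : m ∣ 2 ^ j - 1 := by
    have h1 := Nat.ModEq.pow_totient hc
    exact (Nat.modEq_iff_dvd' (Nat.one_le_two_pow)).1 h1.symm
  let k := GaloisField 2 j
  have hcard : Nat.card k = 2 ^ j := GaloisField.card 2 j hj.ne'
  have hfin : Finite k := Nat.finite_of_card_ne_zero (by rw [hcard]; positivity)
  have hcu : Nat.card kˣ = 2 ^ j - 1 := by rw [Nat.card_units, hcard]
  obtain ⟨u, hu⟩ := IsCyclic.exists_generator (α := kˣ)
  have hou : orderOf u = 2 ^ j - 1 := by rw [orderOf_eq_card_of_forall_mem_zpowers hu, hcu]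
  obtain ⟨c, hc'⟩ := hdvd
  have hjm : 0 < 2 ^ j - 1 := by
    have : 1 < 2 ^ j := Nat.one_lt_two_pow hj.ne'
    omega
  have hc0 : 0 < c := by
    rcases Nat.eq_zero_or_pos c with h | h
    · rw [h, mul_zero] at hc'
      omega
    · exact h
  have hoc : orderOf (u ^ c) = m := by
    rw [orderOf_pow_of_dvd hc0.ne' (by rw [hou, hc']; exact Dvd.intro_left m rfl), hou, hc',
      Nat.mul_div_cancel _ hc0]
  have hcz : Nat.card (Multiplicative (ZMod m)) = Nat.card (Subgroup.zpowers (u ^ c)) := by
    rw [Nat.card_zpowers, hoc]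
    exact Nat.card_zmod m
  let e1 : Multiplicative (ZMod m) ≃* Subgroup.zpowers (u ^ c) := mulEquivOfCyclicCardEq hcz
  refine ⟨k, inferInstance, hfin, inferInstance,
    (dg k).comp ((Subgroup.subtype _).comp e1.toMonoidHom), ?_⟩
  exact (dg_inj k).comp (Subtype.val_injective.comp e1.injective)

/-! ### the counts -/

section counts

variable {Λ Γ : Type} [Group Λ] [Group Γ] {π : Λ →* Γ} (hπ : Function.Surjective π) (hk : KerSL π)
  {g : ℕ} (Φ : NatBij Λ (SurfaceGroup g))

include hπ Φ

theorem finite_homG (Q : Type) [Group Q] [Finite Q] : Finite (Γ →* Q) := by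
  have h1 : Finite (SurfaceGroup g →* Q) := by
    refine Finite.of_injective (homEquiv g Q) (homEquiv g Q).injective
  refine Finite.of_injective (fun f => Φ.toFun Q (f.comp π)) ?_
  intro f f' h
  have h1 : f.comp π = f'.comp π := by
    have := congrArg (Φ.invFun Q) h
    rwa [Φ.left_inv, Φ.left_inv] at this
  refine MonoidHom.ext fun y => ?_
  obtain ⟨x, rfl⟩ := hπ y
  exact DFunLike.congr_fun h1 x

/-- the upper bound -/
theorem card_le (Q : Type) [Group Q] [Finite Q] :
    Nat.card (Γ →* Q) ≤ Nat.card (SurfaceGroup g →* Q) := by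
  have h1 : Finite (SurfaceGroup g →* Q) := by
    refine Finite.of_injective (homEquiv g Q) (homEquiv g Q).injective
  refine Nat.card_le_card_of_injective (fun f => Φ.toFun Q (f.comp π)) ?_
  intro f f' h
  have h1 : f.comp π = f'.comp π := by
    have := congrArg (Φ.invFun Q) h
    rwa [Φ.left_inv, Φ.left_inv] at this
  refine MonoidHom.ext fun y => ?_
  obtain ⟨x, rfl⟩ := hπ y
  exact DFunLike.congr_fun h1 x

include hk

theorem card_S3 : Nat.card (Γ →* Equiv.Perm (Fin 3)) =
    Nat.card (SurfaceGroup g →* Equiv.Perm (Fin 3)) :=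
  card_homEq hπ hk (ZMod 2) emb3 emb3_inj Φ

theorem card_odd (m : ℕ) (hm : Odd m) :
    Nat.card (Γ →* Multiplicative (ZMod m)) = m ^ (2 * g) := by
  have : NeZero m := ⟨hm.pos.ne'⟩
  obtain ⟨k, _, _, _, ι, hι⟩ := exists_emb m hm
  have : Finite (Multiplicative (ZMod m)) := inferInstanceAs (Finite (ZMod m))
  rw [card_homEq hπ hk k ι hι Φ, card_hom_comm]
  exact congrArg (· ^ (2 * g)) (Nat.card_zmod m)

omit hπ hk Φ in
/-- additive functions on the model which vanish on the basis of the free part -/
theorem hom_zero {n : ℕ} {ι : Type} [Fintype ι] (p : ι → ℕ) (e : ι → ℕ) {l : ℕ} [Fact l.Prime]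
    (hlp : ∏ i, p i ^ e i < l) (hp : ∀ i, 0 < p i)
    (D : (Fin n →₀ ℤ) × (DirectSum ι fun i => ZMod (p i ^ e i)) →+ ZMod l)
    (hD : ∀ i, D (Finsupp.single i 1, 0) = 0) : D = 0 := by
  classical
  have h1 : D.comp (AddMonoidHom.inl _ _) = 0 := by
    refine Finsupp.addHom_ext' fun i => ?_
    refine AddMonoidHom.ext_int ?_
    exact hD i
  have h2 : D.comp (AddMonoidHom.inr _ _) = 0 := by
    refine AddMonoidHom.ext fun t => ?_
    have h3 : (∏ i, p i ^ e i) • t = 0 := by
      ext i
      rw [DirectSum.smul_apply, DirectSum.zero_apply]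
      have h4 : p i ^ e i ∣ ∏ i, p i ^ e i := Finset.dvd_prod_of_mem _ (Finset.mem_univ i)
      obtain ⟨c, hc⟩ := h4
      rw [hc, nsmul_eq_mul, Nat.cast_mul, ZMod.natCast_self, zero_mul, zero_mul]
    have h5 : ((∏ i, p i ^ e i : ℕ) : ZMod l) * D (0, t) = 0 := by
      rw [← nsmul_eq_mul, ← map_nsmul]
      have : (∏ i, p i ^ e i) • ((0, t) : (Fin n →₀ ℤ) × (DirectSum ι fun i => ZMod (p i ^ e i))) =
          0 := by
        rw [Prod.smul_mk, h3, smul_zero]
        rfl
      rw [this, map_zero]
    have h6 : ((∏ i, p i ^ e i : ℕ) : ZMod l) ≠ 0 := by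
      rw [Ne, ZMod.natCast_eq_zero_iff]
      intro h
      have h7 : 0 < ∏ i, p i ^ e i := Finset.prod_pos fun i _ => pow_pos (hp i) _
      exact absurd (Nat.le_of_dvd h7 h) (by omega)
    exact (mul_eq_zero.1 h5).resolve_left h6
  refine AddMonoidHom.ext fun x => ?_
  obtain ⟨a, t⟩ := x
  have h8 : ((a, t) : (Fin n →₀ ℤ) × (DirectSum ι fun i => ZMod (p i ^ e i))) =
      (a, 0) + (0, t) := by simp
  rw [h8, map_add]
  have e1 := DFunLike.congr_fun h1 a
  have e2 := DFunLike.congr_fun h2 t
  change D (a, 0) = 0 at e1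
  change D (0, t) = 0 at e2
  rw [e1, e2, add_zero]
  rfl

/-- the rank of the abelianization -/
theorem exists_rank [Group.FG Γ] : ∃ n : ℕ, 2 * g ≤ n ∧
    ∃ q : Γ →* Multiplicative (Fin n → ℤ), Function.Surjective q := by
  classical
  have hA : AddGroup.FG (Additive (Abelianization Γ)) := by
    have : Group.FG (Abelianization Γ) := QuotientGroup.fg _
    infer_instance
  obtain ⟨n, ι, _, p, hp, e, ⟨E⟩⟩ :=
    AddCommGroup.equiv_free_prod_directSum_zmod (Additive (Abelianization Γ))
  refine ⟨n, ?_, ?_⟩
  · -- a prime which does not divide the torsion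
    obtain ⟨l, hl, hlp⟩ := Nat.exists_infinite_primes (∏ i, p i ^ e i + 3)
    have : Fact l.Prime := ⟨hlp⟩
    have hodd : Odd l := hlp.odd_of_ne_two (by omega)
    have h1 := card_odd hπ hk Φ l hodd
    let bar : (Γ →* Multiplicative (ZMod l)) → (Additive (Abelianization Γ) →+ ZMod l) := fun F =>
      MonoidHom.toAdditiveLeft (Abelianization.lift F)
    have hbar : ∀ F x, bar F (Additive.ofMul (Abelianization.of x)) = Multiplicative.toAdd (F x) :=
      fun F x => rfl
    have h2 : Nat.card (Γ →* Multiplicative (ZMod l)) ≤ Nat.card (Fin n → ZMod l) := by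
      refine Nat.card_le_card_of_injective
        (fun F i => bar F (E.symm (Finsupp.single i 1, 0))) ?_
      intro F F' h
      have h3 : (bar F - bar F').comp E.symm.toAddMonoidHom = 0 := by
        refine hom_zero p e (by omega) (fun i => (hp i).pos) _ fun i => ?_
        have := congrFun h i
        change bar F (E.symm (Finsupp.single i 1, 0)) - bar F' (E.symm (Finsupp.single i 1, 0)) = 0
        rw [sub_eq_zero]
        exact this
      refine MonoidHom.ext fun x => ?_
      have h4 := DFunLike.congr_fun h3 (E (Additive.ofMul (Abelianization.of x)))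
      change bar F (E.symm (E _)) - bar F' (E.symm (E _)) = 0 at h4
      rw [E.symm_apply_apply, sub_eq_zero, hbar, hbar] at h4
      exact h4
    rw [h1, Nat.card_fun, Nat.card_zmod, Nat.card_eq_fintype_card (α := Fin n),
      Fintype.card_fin] at h2
    exact (Nat.pow_le_pow_iff_right hlp.one_lt).1 h2
  · let q : Γ →* Multiplicative (Fin n → ℤ) :=
      { toFun := fun x => Multiplicative.ofAdd
          (fun i => (E (Additive.ofMul (Abelianization.of x))).1 i)
        map_one' := by
          rw [map_one]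
          change Multiplicative.ofAdd (fun i => (E 0).1 i) = 1
          rw [map_zero]
          rfl
        map_mul' := fun x y => by
          rw [map_mul]
          change Multiplicative.ofAdd (fun i => (E (Additive.ofMul (Abelianization.of x) +
            Additive.ofMul (Abelianization.of y))).1 i) = _
          rw [map_add]
          rfl }
    refine ⟨q, fun v => ?_⟩
    obtain ⟨y, hy⟩ := E.surjective (Finsupp.equivFunOnFinite.symm (Multiplicative.toAdd v), 0)
    obtain ⟨x, hx⟩ := QuotientGroup.mk_surjective (Additive.toMul y)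
    refine ⟨x, ?_⟩
    have hx' : Additive.ofMul (Abelianization.of x) = y := hx
    change Multiplicative.ofAdd (fun i => (E (Additive.ofMul (Abelianization.of x))).1 i) = v
    rw [hx', hy]
    rfl

/-- the number of homomorphisms to a cyclic group -/
theorem card_cyc [Group.FG Γ] (m : ℕ) (hm : 0 < m) :
    Nat.card (Γ →* Multiplicative (ZMod m)) = m ^ (2 * g) := by
  have hm' : NeZero m := ⟨hm.ne'⟩
  have : Finite (Multiplicative (ZMod m)) := inferInstanceAs (Finite (ZMod m))
  apply le_antisymm
  · refine (card_le hπ Φ _).trans ?_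
    rw [card_hom_comm]
    exact (congrArg (· ^ (2 * g)) (Nat.card_zmod m)).le
  · obtain ⟨n, hn, q, hq⟩ := exists_rank hπ hk Φ
    have h1 : Nat.card (Fin n → ZMod m) ≤ Nat.card (Γ →* Multiplicative (ZMod m)) := by
      have hfin := finite_homG hπ Φ (Multiplicative (ZMod m))
      let w : (Fin n → ZMod m) → (Multiplicative (Fin n → ℤ) →* Multiplicative (ZMod m)) := fun v =>
        { toFun := fun a => Multiplicative.ofAdd (∑ i, (Multiplicative.toAdd a i : ZMod m) * v i)
          map_one' := by
            rw [← ofAdd_zero]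
            congr 1
            refine Finset.sum_eq_zero fun i _ => ?_
            change ((0 : ℤ) : ZMod m) * v i = 0
            rw [Int.cast_zero, zero_mul]
          map_mul' := fun a b => by
            rw [← ofAdd_add, ← Finset.sum_add_distrib]
            congr 1
            refine Finset.sum_congr rfl fun i _ => ?_
            rw [toAdd_mul, Pi.add_apply, Int.cast_add, add_mul] }
      refine Nat.card_le_card_of_injective (fun v => (w v).comp q) ?_
      intro v v' h
      funext i
      obtain ⟨x, hx⟩ := hq (Multiplicative.ofAdd (Pi.single i 1))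
      have h2 := DFunLike.congr_fun h x
      have h3 : ∀ v : Fin n → ZMod m, ((w v).comp q) x = Multiplicative.ofAdd (v i) := by
        intro v
        rw [MonoidHom.comp_apply, hx]
        change Multiplicative.ofAdd (∑ j, ((Pi.single i (1 : ℤ) : Fin n → ℤ) j : ZMod m) * v j) = _
        congr 1
        rw [Finset.sum_eq_single i]
        · rw [Pi.single_eq_same, Int.cast_one, one_mul]
        · intro j _ hj
          rw [Pi.single_eq_of_ne hj, Int.cast_zero, zero_mul]
        · intro h
          exact absurd (Finset.mem_univ i) h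
      have h4 : Multiplicative.ofAdd (v i) = Multiplicative.ofAdd (v' i) := by
        rw [← h3 v, ← h3 v']
        exact h2
      exact Multiplicative.ofAdd.injective h4
    rw [Nat.card_fun, Nat.card_zmod, Nat.card_eq_fintype_card (α := Fin n), Fintype.card_fin] at h1
    exact (Nat.pow_le_pow_right hm hn).trans h1

end counts

end Pool.Agent.SuPts
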