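import Pool.Agent.Lib.MP_305fdd_al.Su.Pts.Main
import Pool.Agent.Lib.MP_305fdd_al.Su.SM.Pack
import Pool.Agent.Lib.MP_305fdd_al.Su.Pts.Ab

/-!
# MP_305fdd_al, surface groups, block PTS: the universal property over reduced rings

`pts_red`: a representation of `Λ` over a reduced ring of characteristic two kills the torsion `ZZ`;
`Gn.sp_red`: it is a specialisation of the generic representation `ρ`; `Gn.ker_le`: it is trivial on the
kernel of `ρ`.
-/

set_option autoImplicit false

namespace Pool.Agent.SuPts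

open Pool.Agent.Su Pool.Agent.SuSM Pool.Agent.Lib.MP_305fdd_al Pool.Agent.SuCO Pool.Agent.FrN

/-- a field which is finitely generated as an algebra over `ZMod p` is finite -/
theorem finite_field {p : ℕ} [Fact p.Prime] (k : Type) [Field k] [Algebra (ZMod p) k]
    [Algebra.FiniteType (ZMod p) k] : Finite k := by
  have : Module.Finite (ZMod p) k := finite_of_finite_type_of_isJacobsonRing (ZMod p) k
  exact Module.finite_of_finite (ZMod p)

/-- every representation of `Λ` over a reduced ring of characteristic two kills the torsion -/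
theorem pts_red {g : ℕ} (hg : 2 ≤ g) {Λ : Type} [Group Λ] [Group.FG Λ]
    (Φ : NatBij Λ (SurfaceGroup g)) (R : Type) [CommRing R] [IsReduced R] [Algebra (ZMod 2) R]
    (r : Λ →* Matrix.SpecialLinearGroup (Fin 2) R) :
    ∀ x ∈ ZZ 2 Λ, SR.lift (p := 2) r x = 0 := by
  intro x hx
  have hred : IsReduced (SR.lift (p := 2) r).range :=
    isReduced_of_injective (SR.lift (p := 2) r).range.val Subtype.val_injective
  have hft : Algebra.FiniteType (ZMod 2) (SR.lift (p := 2) r).range :=
    Algebra.FiniteType.of_surjective (SR.lift (p := 2) r).rangeRestrict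
      (AlgHom.rangeRestrict_surjective _)
  have hjac : IsJacobsonRing (SR.lift (p := 2) r).range :=
    isJacobsonRing_of_finiteType (A := ZMod 2)
  by_contra hcon
  have h1 : (SR.lift (p := 2) r).rangeRestrict x ≠ 0 := fun h => hcon (congrArg Subtype.val h)
  have h2 : (SR.lift (p := 2) r).rangeRestrict x ∉
      (⊥ : Ideal (SR.lift (p := 2) r).range).jacobson := by
    have h5 : (⊥ : Ideal (SR.lift (p := 2) r).range).IsRadical := by
      have h6 := Ideal.radical_isRadical (⊥ : Ideal (SR.lift (p := 2) r).range)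
      have h7 : (⊥ : Ideal (SR.lift (p := 2) r).range).radical = ⊥ :=
        nilradical_eq_zero (SR.lift (p := 2) r).range
      rwa [h7] at h6
    rw [hjac.out h5]
    exact h1
  rw [Ideal.jacobson, Ideal.mem_sInf] at h2
  push Not at h2
  obtain ⟨M, ⟨-, hM⟩, hxM⟩ := h2
  let := Ideal.Quotient.field M
  have hfin : Finite ((SR.lift (p := 2) r).range ⧸ M) := by
    have : Algebra.FiniteType (ZMod 2) ((SR.lift (p := 2) r).range ⧸ M) :=
      Algebra.FiniteType.of_surjective (Ideal.Quotient.mkₐ (ZMod 2) M)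
        (Ideal.Quotient.mkₐ_surjective _ _)
    exact finite_field (p := 2) _
  let f : SR 2 Λ →ₐ[ZMod 2] ((SR.lift (p := 2) r).range ⧸ M) :=
    (Ideal.Quotient.mkₐ (ZMod 2) M).comp (SR.lift (p := 2) r).rangeRestrict
  have h3 := pts hg Φ _ ((Matrix.SpecialLinearGroup.map
    (f : SR 2 Λ →+* ((SR.lift (p := 2) r).range ⧸ M))).comp (SR.rho 2 Λ)) x hx
  rw [SR.lift_comp] at h3
  exact hxM (Ideal.Quotient.eq_zero_iff_mem.1 h3)

variable {g : ℕ} {Λ F : Type} [Group Λ] [Group.FG Λ] [Field F] [Algebra (ZMod 2) F]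
  {ρ : Λ →* Matrix.SpecialLinearGroup (Fin 2) F}

/-- the universal property of the generic representation over reduced rings -/
theorem Gn_sp_red (hg : 2 ≤ g) (Φ : NatBij Λ (SurfaceGroup g)) (h : Gn 2 ρ) (R : Type) [CommRing R]
    [IsReduced R] [Algebra (ZMod 2) R] (r : Λ →* Matrix.SpecialLinearGroup (Fin 2) R) : Sp 2 ρ r :=
  (h.sp_iff r).2 (pts_red hg Φ R r)

/-- the same, written out -/
theorem Gn_pts (hg : 2 ≤ g) (Φ : NatBij Λ (SurfaceGroup g)) (h : Gn 2 ρ) (R : Type) [CommRing R]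
    [IsReduced R] [Algebra (ZMod 2) R] (r : Λ →* Matrix.SpecialLinearGroup (Fin 2) R) :
    ∃ φ : OO 2 ρ →ₐ[ZMod 2] R, ∀ x i j, φ ⟨(ρ x).1 i j, mem_OO ρ x i j⟩ = (r x).1 i j :=
  Gn_sp_red hg Φ h R r

/-- a representation over a reduced ring is trivial on the kernel of the generic one -/
theorem Gn_ker_le (hg : 2 ≤ g) (Φ : NatBij Λ (SurfaceGroup g)) (h : Gn 2 ρ) (R : Type) [CommRing R]
    [IsReduced R] [Algebra (ZMod 2) R] (r : Λ →* Matrix.SpecialLinearGroup (Fin 2) R) :
    ρ.ker ≤ r.ker := by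
  obtain ⟨φ, hφ⟩ := Gn_pts hg Φ h R r
  intro x hx
  rw [MonoidHom.mem_ker] at hx ⊢
  apply Subtype.ext
  ext i j
  rw [← hφ]
  have h1 : (⟨(ρ x).1 i j, mem_OO ρ x i j⟩ : OO 2 ρ) = (1 : Matrix (Fin 2) (Fin 2) (OO 2 ρ)) i j := by
    apply Subtype.ext
    change (ρ x).1 i j = _
    rw [hx, Matrix.SpecialLinearGroup.coe_one, Matrix.one_apply, Matrix.one_apply]
    split_ifs <;> rfl
  rw [h1, Matrix.SpecialLinearGroup.coe_one, Matrix.one_apply, Matrix.one_apply]
  split_ifs
  · exact map_one φ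
  · exact map_zero φ

/-- a homomorphism to a subgroup of `SL₂` of a reduced ring is trivial on the kernel of the generic
representation -/
theorem Gn_ker_le' (hg : 2 ≤ g) (Φ : NatBij Λ (SurfaceGroup g)) (h : Gn 2 ρ) (R : Type) [CommRing R]
    [IsReduced R] [Algebra (ZMod 2) R] {Q : Type} [Group Q]
    (ι : Q →* Matrix.SpecialLinearGroup (Fin 2) R) (hι : Function.Injective ι) (f : Λ →* Q) :
    ρ.ker ≤ f.ker := by
  intro x hx
  have h1 := Gn_ker_le hg Φ h R (ι.comp f) hx
  rw [MonoidHom.mem_ker] at h1 ⊢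
  apply hι
  rw [map_one]
  exact h1

/-- the hypothesis of the counts in `Su/Pts/Ab.lean` -/
theorem kerSL (hg : 2 ≤ g) (Φ : NatBij Λ (SurfaceGroup g)) (h : Gn 2 ρ) {Γ : Type} [Group Γ]
    (π : Λ →* Γ) (hπ : π.ker ≤ ρ.ker) : KerSL π := by
  intro k _ _ _ r
  exact hπ.trans (Gn_ker_le hg Φ h k r)

end Pool.Agent.SuPts
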