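import Mathlib

/-!
# MP_305fdd_al, surface groups, block PTS: the dimension of the minimal primes over `c` elements

`kd`: a minimal prime `P` of an ideal with `c` generators of `k[x_1, …, x_n]`: the quotient by `P` is a
finite extension of a polynomial ring in `d ≥ n - c` variables.
-/

set_option autoImplicit false

namespace Pool.Agent.SuPts

open MvPolynomial

/-- the height of the maximal ideals of a polynomial ring over a field -/
theorem height_maximal (k : Type) [Field k] (n : ℕ) :
    ∀ M : Ideal (MvPolynomial (Fin n) k), M.IsMaximal → M.height = n := by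
  induction n with
  | zero =>
    intro M hM
    have e := (MvPolynomial.isEmptyAlgEquiv k (Fin 0)).toRingEquiv
    have h1 : M = ⊥ := by
      have h2 : IsField (MvPolynomial (Fin 0) k) :=
        MulEquiv.isField (Field.toIsField k) e.toMulEquiv
      let := h2.toField
      exact (Ideal.eq_bot_or_top M).resolve_right hM.ne_top
    subst h1
    simp
  | succ n ih =>
    intro M hM
    let e : MvPolynomial (Fin (n + 1)) k ≃+* Polynomial (MvPolynomial (Fin n) k) :=
      (finSuccEquiv k n).toRingEquiv
    have h1 : (M.map e).IsMaximal := Ideal.map_isMaximal_of_equiv e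
    have h2 : ((M.map e).under (MvPolynomial (Fin n) k)).IsMaximal :=
      Polynomial.isMaximal_comap_C_of_isJacobsonRing (M.map e)
    have h3 : (M.map e).height = ((M.map e).under (MvPolynomial (Fin n) k)).height + 1 :=
      @Polynomial.height_eq_height_add_one (MvPolynomial (Fin n) k) _ _
        ((M.map e).under (MvPolynomial (Fin n) k)) (M.map e) h1 ⟨rfl⟩
    rw [ih _ h2, e.height_map M] at h3
    rw [h3]
    norm_cast

/-- the dimension does not grow in integral extensions -/
theorem ringKrullDim_le_of_integral {A B : Type} [CommRing A] [CommRing B] (f : A →+* B)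
    (hf : f.IsIntegral) : ringKrullDim B ≤ ringKrullDim A := by
  let := f.toAlgebra
  have : Algebra.IsIntegral A B := ⟨hf⟩
  refine Order.krullDim_le_of_strictMono (PrimeSpectrum.comap (algebraMap A B)) ?_
  intro I J hIJ
  exact Ideal.IsIntegral.comap_lt_comap hIJ

/-- the height of a prime over a minimal prime `P` of an ideal with `c` generators, if `P` is the only
minimal prime below it -/
theorem height_le {R : Type} [CommRing R] [IsNoetherianRing R] {c : ℕ} (s : Finset R)
    (hs : s.card ≤ c) {P M : Ideal R} [P.IsPrime] [M.IsPrime] (hPM : P ≤ M)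
    (hP : ∀ Q : Ideal R, Q.IsPrime → Ideal.span (s : Set R) ≤ Q → Q ≤ M → P ≤ Q)
    (hsP : Ideal.span (s : Set R) ≤ P) :
    M.height ≤ c + (M.map (Ideal.Quotient.mk P)).height := by
  classical
  let p' := M.map (Ideal.Quotient.mk P)
  have hp' : p'.IsPrime := Ideal.isPrime_map_quotientMk_of_isPrime hPM
  have hker : ∀ x, Ideal.Quotient.mk P x ∈ p' ↔ x ∈ M := fun x => by
    change Ideal.Quotient.mk P x ∈ M.map (Ideal.Quotient.mk P) ↔ x ∈ M
    rw [Ideal.mem_quotient_iff_mem hPM]
  obtain ⟨t, htp, ht⟩ := p'.exists_finset_card_eq_height_of_isNoetherianRing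
  choose σ hσ using Ideal.Quotient.mk_surjective (I := P)
  let o : Finset R := s ∪ t.image σ
  have ho : o.card ≤ c + t.card :=
    (Finset.card_union_le _ _).trans (add_le_add hs Finset.card_image_le)
  have hmem : M ∈ (Ideal.span (o : Set R)).minimalPrimes := by
    refine ⟨⟨inferInstance, Ideal.span_le.2 ?_⟩, ?_⟩
    · intro x hx
      rcases Finset.mem_union.1 (Finset.mem_coe.1 hx) with hx | hx
      · exact hPM (hsP (Ideal.subset_span hx))
      · obtain ⟨y, hy, rfl⟩ := Finset.mem_image.1 hx
        have : y ∈ p' := htp.1.2 (Ideal.subset_span hy)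
        rw [← hσ y] at this
        exact (hker _).1 this
    · rintro Q ⟨hQ, hoQ⟩ hQM
      have h1 : P ≤ Q := hP Q hQ (le_trans (Ideal.span_mono fun x hx =>
        Finset.mem_coe.2 (Finset.mem_union_left _ hx)) hoQ) hQM
      have h2 : (Q.map (Ideal.Quotient.mk P)).IsPrime := Ideal.isPrime_map_quotientMk_of_isPrime h1
      have h3 : Ideal.span (t : Set (R ⧸ P)) ≤ Q.map (Ideal.Quotient.mk P) := by
        refine Ideal.span_le.2 fun y hy => ?_
        rw [← hσ y]
        exact Ideal.mem_map_of_mem _ (hoQ (Ideal.subset_span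
          (Finset.mem_coe.2 (Finset.mem_union_right _ (Finset.mem_image_of_mem σ hy)))))
      have h4 : p' ≤ Q.map (Ideal.Quotient.mk P) := htp.2 ⟨h2, h3⟩ (Ideal.map_mono hQM)
      intro x hx
      rw [← Ideal.mem_quotient_iff_mem h1]
      exact h4 ((hker x).2 hx)
  have h5 := Ideal.height_le_card_of_mem_minimalPrimes_span_finset hmem
  rw [← ht]
  refine h5.trans ?_
  exact_mod_cast ho

/-- the minimal primes over `c` elements of `k[x_1, …, x_n]` -/
theorem kd (k : Type) [Field k] {n c : ℕ} (s : Finset (MvPolynomial (Fin n) k)) (hs : s.card ≤ c)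
    {P : Ideal (MvPolynomial (Fin n) k)} (hP : P ∈ (Ideal.span (s : Set _)).minimalPrimes) :
    ∃ (d : ℕ) (g : MvPolynomial (Fin d) k →ₐ[k] (MvPolynomial (Fin n) k ⧸ P)),
      n ≤ c + d ∧ Function.Injective g := by
  classical
  have hPp : P.IsPrime := hP.1.1
  have hnt : Nontrivial (MvPolynomial (Fin n) k ⧸ P) := Ideal.Quotient.nontrivial_iff.2 hPp.ne_top
  obtain ⟨d, g, hg, hgf⟩ := exists_finite_inj_algHom_of_fg k (MvPolynomial (Fin n) k ⧸ P)
  refine ⟨d, g, ?_, hg⟩
  -- a maximal ideal which contains `P` and no other minimal prime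
  have hfin : ((Ideal.span (s : Set (MvPolynomial (Fin n) k))).minimalPrimes).Finite :=
    Ideal.finite_minimalPrimes_of_isNoetherianRing _ _
  let F := hfin.toFinset.erase P
  have hF : ∀ Q ∈ F, ∃ x ∈ Q, x ∉ P := by
    intro Q hQ
    by_contra hcon
    push Not at hcon
    have hQ' := Finset.mem_erase.1 hQ
    have hQm := hfin.mem_toFinset.1 hQ'.2
    exact hQ'.1 (le_antisymm hcon (hP.2 hQm.1 hcon))
  choose! x hxQ hxP using hF
  have hb : ∏ Q ∈ F, x Q ∉ P := by
    intro h
    obtain ⟨Q, hQ, hx⟩ := (Ideal.IsPrime.prod_mem_iff (p := P)).1 h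
    exact hxP Q hQ hx
  have hjac : P.jacobson = P := (inferInstance : IsJacobsonRing (MvPolynomial (Fin n) k)).out
    hPp.isRadical
  have hb' : ∏ Q ∈ F, x Q ∉ P.jacobson := by rwa [hjac]
  rw [Ideal.jacobson, Ideal.mem_sInf] at hb'
  push Not at hb'
  obtain ⟨M, ⟨hPM, hM⟩, hbM⟩ := hb'
  have hMp : M.IsPrime := hM.isPrime
  have h1 := height_le s hs hPM (fun Q hQ hsQ hQM => by
    obtain ⟨Q', hQ', hQQ⟩ := Ideal.exists_minimalPrimes_le hsQ
    by_cases he : Q' = P
    · rwa [he] at hQQ
    · exfalso
      have hQF : Q' ∈ F := Finset.mem_erase.2 ⟨he, hfin.mem_toFinset.2 hQ'⟩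
      apply hbM
      rw [← Finset.mul_prod_erase F x hQF]
      exact M.mul_mem_right _ (hQM (hQQ (hxQ Q' hQF)))) hP.1.2
  rw [height_maximal k n M hM] at h1
  have h2 : ((M.map (Ideal.Quotient.mk P)).height : WithBot ℕ∞) ≤ d := by
    have hp' : (M.map (Ideal.Quotient.mk P)).IsPrime := Ideal.isPrime_map_quotientMk_of_isPrime hPM
    refine (Ideal.height_le_ringKrullDim_of_ne_top hp'.ne_top).trans ?_
    refine (ringKrullDim_le_of_integral (g : MvPolynomial (Fin d) k →+* _)
      hgf.to_isIntegral).trans ?_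
    rw [MvPolynomial.ringKrullDim_of_isNoetherianRing, ringKrullDim_eq_zero_of_field]
    simp
  have h3 : (M.map (Ideal.Quotient.mk P)).height ≤ d := by exact_mod_cast h2
  have h4 : (n : ℕ∞) ≤ c + d := h1.trans (by gcongr)
  exact_mod_cast h4

end Pool.Agent.SuPts
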