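import Pool.Agent.Lib.MP_305fdd_al.Su.Pts.Sig

/-!
# MP_305fdd_al, surface groups, block PTS: every representation over a finite field is a point of the
quotient of the universal ring by the torsion `ZZ`

`pts_sig` for the surface group, `pts` for a group `Λ` with the same finite quotients.
-/

set_option autoImplicit false

namespace Pool.Agent.SuPts

open Pool.Agent.Su Pool.Agent.SuSM Pool.Agent.Lib.MP_305fdd_al

/-- the universal ring of the surface group has only one minimal prime -/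
theorem minimal_unique_sig {g : ℕ} (hg : 2 ≤ g) (P P' : Ideal (SR 2 (SurfaceGroup g)))
    (hP : P ∈ minimalPrimes (SR 2 (SurfaceGroup g)))
    (hP' : P' ∈ minimalPrimes (SR 2 (SurfaceGroup g))) : P = P' := by
  refine minimal_unique (p := 2) FrH.domainStatement (c := 2 * g + 3) (D := 6 * g - 3)
    (C₀ := 4 ^ (g - 1)) (by omega) (phi g) (phi_surjective g) (eqs g) (card_eqs g) (phi_eqs (g := g))
    (fun Q _ hQ x hx => phi_ker Q hQ x hx) ?_ P P' hP hP'
  intro E _ _ _
  have hch : CharP E 2 := charP_of_injective_algebraMap (algebraMap (ZMod 2) E).injective 2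
  have hfin : Finite (Matrix.SpecialLinearGroup (Fin 2) E) := finite_SL
  have hfg : Group.FG (SurfaceGroup g) := by
    rw [Group.fg_iff]
    exact ⟨Set.range (gen g), closure_gen g, Set.finite_range _⟩
  have hfinH : Finite (SurfaceGroup g →* Matrix.SpecialLinearGroup (Fin 2) E) :=
    Finite.of_injective (fun r => fun x => r (gen g x)) fun r r' h => by
      refine MonoidHom.eq_of_eqOn_dense (closure_gen g) ?_
      rintro _ ⟨x, rfl⟩
      exact congrFun h x
  have h1 : Nat.card (SR 2 (SurfaceGroup g) →ₐ[ZMod 2] E) ≤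
      Nat.card (SurfaceGroup g →* Matrix.SpecialLinearGroup (Fin 2) E) := by
    refine Nat.card_le_card_of_injective (fun f =>
      (Matrix.SpecialLinearGroup.map (f : SR 2 (SurfaceGroup g) →+* E)).comp
        (SR.rho 2 (SurfaceGroup g))) ?_
    intro f f' h
    refine SR.hom_ext fun γ i j => ?_
    exact congrFun (congrFun (congrArg Subtype.val (DFunLike.congr_fun h γ)) i) j
  have h2 := card_hom_le hg E
  calc Nat.card E * Nat.card (SR 2 (SurfaceGroup g) →ₐ[ZMod 2] E)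
      ≤ Nat.card E * (Nat.card E ^ (6 * g - 3) + 4 ^ (g - 1) * Nat.card E ^ (6 * g - 4)) :=
        Nat.mul_le_mul_left _ (h1.trans h2)
    _ = Nat.card E ^ (6 * g - 3 + 1) + 4 ^ (g - 1) * Nat.card E ^ (6 * g - 3) := by
        have e : 6 * g - 3 = (6 * g - 4) + 1 := by omega
        rw [e, pow_succ, pow_succ]
        ring

/-! ### a good representation -/

section good

open Polynomial

theorem two_eq : (2 : (ZMod 2)[X]) = 0 := by
  have h : ((2 : ℕ) : (ZMod 2)[X]) = 0 := CharP.cast_eq_zero _ 2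
  exact_mod_cast h

/-- two matrices -/
noncomputable def uu : Matrix.SpecialLinearGroup (Fin 2) (ZMod 2)[X] :=
  ⟨!![X, 1; 1, 0], by
    rw [Matrix.det_fin_two_of]
    linear_combination (-1 : (ZMod 2)[X]) * two_eq⟩

/-- two matrices -/
noncomputable def vv : Matrix.SpecialLinearGroup (Fin 2) (ZMod 2)[X] :=
  ⟨!![X + 1, 1; 1, 0], by
    rw [Matrix.det_fin_two_of]
    linear_combination (-1 : (ZMod 2)[X]) * two_eq⟩

theorem trace_uv : (uu ^ 2 * vv ^ 2 * (uu ^ 2)⁻¹ * (vv ^ 2)⁻¹).1.trace = X ^ 4 + X ^ 2 := by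
  have h1 : (uu ^ 2).1 = !![X ^ 2 + 1, X; X, 1] := by
    rw [pow_two]
    change (!![X, 1; 1, 0] : Matrix (Fin 2) (Fin 2) (ZMod 2)[X]) * !![X, 1; 1, 0] = _
    rw [Matrix.mul_fin_two]
    congr 1
    ring_nf
  have h2 : (vv ^ 2).1 = !![(X + 1) ^ 2 + 1, X + 1; X + 1, 1] := by
    rw [pow_two]
    change (!![X + 1, 1; 1, 0] : Matrix (Fin 2) (Fin 2) (ZMod 2)[X]) * !![X + 1, 1; 1, 0] = _
    rw [Matrix.mul_fin_two]
    congr 1
    ring_nf
  rw [Matrix.SpecialLinearGroup.coe_mul, Matrix.SpecialLinearGroup.coe_mul,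
    Matrix.SpecialLinearGroup.coe_mul, Matrix.SpecialLinearGroup.coe_inv,
    Matrix.SpecialLinearGroup.coe_inv, h1, h2, Matrix.adjugate_fin_two_of,
    Matrix.adjugate_fin_two_of, Matrix.mul_fin_two, Matrix.mul_fin_two, Matrix.mul_fin_two,
    Matrix.trace_fin_two_of]
  linear_combination (1 - X ^ 2 - X ^ 3 - X ^ 4 : (ZMod 2)[X]) * two_eq

theorem X_ne : (X ^ 4 + X ^ 2 : (ZMod 2)[X]) ≠ 0 := by
  intro h
  have h1 := congrArg (fun f => f.coeff 4) h
  simp [coeff_X_pow] at h1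

/-- the values of a good representation -/
noncomputable def gv (g : ℕ) : Fin g ⊕ Fin g → Matrix.SpecialLinearGroup (Fin 2) (ZMod 2)[X]
  | Sum.inl _ => 1
  | Sum.inr i => if i.1 = 0 then uu else if i.1 = 1 then vv else 1

theorem gv_rel (g : ℕ) : (List.ofFn fun i : Fin g => gv g (Sum.inl i) * gv g (Sum.inr i) *
    (gv g (Sum.inl i))⁻¹ * (gv g (Sum.inr i))⁻¹).prod = 1 := by
  have h : (fun i : Fin g => gv g (Sum.inl i) * gv g (Sum.inr i) *
      (gv g (Sum.inl i))⁻¹ * (gv g (Sum.inr i))⁻¹) = fun _ => 1 := by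
    funext i
    change 1 * gv g (Sum.inr i) * 1⁻¹ * (gv g (Sum.inr i))⁻¹ = 1
    group
  rw [h, List.ofFn_const, List.prod_replicate, one_pow]

/-- a good representation -/
noncomputable def gr (g : ℕ) : SurfaceGroup g →* Matrix.SpecialLinearGroup (Fin 2) (ZMod 2)[X] :=
  sLift (gv g) (gv_rel g)

theorem exists_good {g : ℕ} (hg : 2 ≤ g) : ∃ a ∈ Sq (SurfaceGroup g), ∃ b ∈ Sq (SurfaceGroup g),
    (gr g (a * b * a⁻¹ * b⁻¹)).1.trace ≠ 0 := by
  refine ⟨gen g (Sum.inr ⟨0, by omega⟩) ^ 2, Subgroup.subset_closure ⟨_, rfl⟩,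
    gen g (Sum.inr ⟨1, by omega⟩) ^ 2, Subgroup.subset_closure ⟨_, rfl⟩, ?_⟩
  have h0 : gr g (gen g (Sum.inr ⟨0, by omega⟩)) = uu := by
    rw [gr, sLift_gen]
    simp [gv]
  have h1 : gr g (gen g (Sum.inr ⟨1, by omega⟩)) = vv := by
    rw [gr, sLift_gen]
    simp [gv]
  rw [map_mul, map_mul, map_mul, map_inv, map_inv, map_pow, map_pow, h0, h1, trace_uv]
  exact X_ne

end good

/-- every representation of the surface group over a domain kills the torsion -/
theorem pts_sig_dom {g : ℕ} (hg : 2 ≤ g) (k : Type) [CommRing k] [IsDomain k] [Algebra (ZMod 2) k]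
    (r : SurfaceGroup g →* Matrix.SpecialLinearGroup (Fin 2) k) :
    ∀ x ∈ ZZ 2 (SurfaceGroup g), SR.lift (p := 2) r x = 0 := by
  rintro x ⟨n, hn⟩
  -- the minimal prime below the kernel of `r`
  have hK : (RingHom.ker (SR.lift (p := 2) r)).IsPrime := RingHom.ker_isPrime _
  obtain ⟨P, hP, hPK⟩ := Ideal.exists_minimalPrimes_le
    (bot_le : (⊥ : Ideal (SR 2 (SurfaceGroup g))) ≤ RingHom.ker (SR.lift (p := 2) r))
  have hK' : (RingHom.ker (SR.lift (p := 2) (gr g))).IsPrime := RingHom.ker_isPrime _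
  obtain ⟨P', hP', hPK'⟩ := Ideal.exists_minimalPrimes_le
    (bot_le : (⊥ : Ideal (SR 2 (SurfaceGroup g))) ≤ RingHom.ker (SR.lift (p := 2) (gr g)))
  have hPP : P' = P := minimal_unique_sig hg P' P hP' hP
  subst hPP
  have hPp : P'.IsPrime := hP.1.1
  obtain ⟨a, ha, b, hb, hab⟩ := exists_good hg
  have h1 : (SR.rho 2 (SurfaceGroup g) (a * b * a⁻¹ * b⁻¹)).1.trace ∈
      bad (SR.rho 2 (SurfaceGroup g)) := Ideal.subset_span ⟨a, ha, b, hb, rfl⟩
  have h2 : (SR.rho 2 (SurfaceGroup g) (a * b * a⁻¹ * b⁻¹)).1.trace ∉ P' := by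
    intro h
    have h3 := hPK' h
    rw [RingHom.mem_ker, Matrix.trace_fin_two, map_add, SR.lift_rho, SR.lift_rho,
      ← Matrix.trace_fin_two] at h3
    exact hab h3
  have h4 : (SR.rho 2 (SurfaceGroup g) (a * b * a⁻¹ * b⁻¹)).1.trace ^ n * x = 0 :=
    hn _ (Ideal.pow_mem_pow h1 n)
  have h5 : (SR.rho 2 (SurfaceGroup g) (a * b * a⁻¹ * b⁻¹)).1.trace ^ n * x ∈ P' := by
    rw [h4]
    exact P'.zero_mem
  rcases hPp.mem_or_mem h5 with h6 | h6
  · exact (h2 (hPp.mem_of_pow_mem _ h6)).elim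
  · exact hPK h6

theorem fg_surf (g : ℕ) : Group.FG (SurfaceGroup g) := by
  rw [Group.fg_iff]
  exact ⟨Set.range (gen g), closure_gen g, Set.finite_range _⟩

/-- every representation of `Λ` over a finite field of characteristic two kills the torsion -/
theorem pts {g : ℕ} (hg : 2 ≤ g) {Λ : Type} [Group Λ] [Group.FG Λ] (Φ : NatBij Λ (SurfaceGroup g))
    (k : Type) [Field k] [Finite k] [Algebra (ZMod 2) k]
    (r : Λ →* Matrix.SpecialLinearGroup (Fin 2) k) :
    ∀ x ∈ ZZ 2 Λ, SR.lift (p := 2) r x = 0 := by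
  have := fg_surf g
  have hfin : Finite (Matrix.SpecialLinearGroup (Fin 2) k) := finite_SL
  have h := tp_main (p := 2) Φ.symm (Φ.toFun _ r) (pts_sig_dom hg k (Φ.toFun _ r))
  have e : Φ.symm.toFun (Matrix.SpecialLinearGroup (Fin 2) k) (Φ.toFun _ r) = r := Φ.left_inv _ r
  rwa [e] at h

end Pool.Agent.SuPts
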