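import Pool.Agent.Lib.MP_305fdd_al.Su.Pts.Uniq
import Pool.Agent.Lib.MP_305fdd_al.Su.SM.Bad
import Pool.Agent.Lib.MP_305fdd_al.Su.Count
import Pool.Agent.Lib.MP_305fdd_al.Fr.N.H.Dom

/-!
# MP_305fdd_al, surface groups, block PTS: the universal ring `SR 2 (SurfaceGroup g)` has only one
minimal prime, and every representation over a finite field is a point of the quotient by the torsion
-/

set_option autoImplicit false

namespace Pool.Agent.SuPts

open MvPolynomial Pool.Agent.Su Pool.Agent.SuSM Pool.Agent.Lib.MP_305fdd_al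

/-! ### generators -/

/-- the generators of the surface group -/
def gen (g : ℕ) (x : Fin g ⊕ Fin g) : SurfaceGroup g := PresentedGroup.of (rels := {surfRel g}) x

theorem closure_gen (g : ℕ) : Subgroup.closure (Set.range (gen g)) = ⊤ :=
  PresentedGroup.closure_range_of _

theorem gen_rel (g : ℕ) : (List.ofFn fun i : Fin g => gen g (Sum.inl i) * gen g (Sum.inr i) *
    (gen g (Sum.inl i))⁻¹ * (gen g (Sum.inr i))⁻¹).prod = 1 := by
  have h := ((homEquiv g (SurfaceGroup g)) (MonoidHom.id _)).2
  exact h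

/-- homomorphisms defined on the surface group -/
def sLift {g : ℕ} {G : Type} [Group G] (N : Fin g ⊕ Fin g → G)
    (h : (List.ofFn fun i : Fin g => N (Sum.inl i) * N (Sum.inr i) * (N (Sum.inl i))⁻¹ *
      (N (Sum.inr i))⁻¹).prod = 1) : SurfaceGroup g →* G :=
  (homEquiv g G).symm ⟨fun i => (N (Sum.inl i), N (Sum.inr i)), h⟩

theorem sLift_gen {g : ℕ} {G : Type} [Group G] (N : Fin g ⊕ Fin g → G)
    (h : (List.ofFn fun i : Fin g => N (Sum.inl i) * N (Sum.inr i) * (N (Sum.inl i))⁻¹ *
      (N (Sum.inr i))⁻¹).prod = 1) (x : Fin g ⊕ Fin g) : sLift N h (gen g x) = N x := by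
  have h1 := (homEquiv g G).apply_symm_apply ⟨fun i => (N (Sum.inl i), N (Sum.inr i)), h⟩
  have h2 := congrArg Subtype.val h1
  rcases x with i | i
  · exact congrArg Prod.fst (congrFun h2 i)
  · exact congrArg Prod.snd (congrFun h2 i)

/-! ### the equations -/

section eqs

variable (g : ℕ)

/-- the indices of the variables -/
abbrev Ix (g : ℕ) : Type := (Fin g ⊕ Fin g) × Fin 2 × Fin 2

theorem card_Ix : Fintype.card (Ix g) = 8 * g := by
  simp only [Ix, Fintype.card_prod, Fintype.card_sum, Fintype.card_fin]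
  ring

/-- the numbering of the variables -/
noncomputable def num : Ix g ≃ Fin (8 * g) := Fintype.equivFinOfCardEq (card_Ix g)

/-- the ring of polynomials in the entries of the generators -/
abbrev RG (g : ℕ) : Type := MvPolynomial (Fin (8 * g)) (ZMod 2)

/-- the generic matrices -/
noncomputable def MM (x : Fin g ⊕ Fin g) : Matrix (Fin 2) (Fin 2) (RG g) :=
  Matrix.of fun a b => X (num g (x, a, b))

/-- the relator -/
noncomputable def WW : Matrix (Fin 2) (Fin 2) (RG g) :=
  (List.ofFn fun i : Fin g => MM g (Sum.inl i) * MM g (Sum.inr i) * (MM g (Sum.inl i)).adjugate *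
    (MM g (Sum.inr i)).adjugate).prod

open Classical in
/-- the equations -/
noncomputable def eqs : Finset (RG g) :=
  (Finset.univ.image fun x : Fin g ⊕ Fin g => (MM g x).det - 1) ∪
    {WW g 0 1, WW g 1 0, WW g 0 0 - 1}

theorem card_eqs : (eqs g).card ≤ 2 * g + 3 := by
  classical
  refine (Finset.card_union_le _ _).trans (add_le_add ?_ ?_)
  · refine Finset.card_image_le.trans ?_
    simp only [Finset.card_univ, Fintype.card_sum, Fintype.card_fin]
    omega
  · exact Finset.card_le_three

variable {g}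

section hom

variable {A : Type} [CommRing A] (ψ : RG g →+* A) (hψ : ∀ f ∈ eqs g, ψ f = 0)

include hψ

theorem det_ok (x : Fin g ⊕ Fin g) : ((MM g x).map ψ).det = 1 := by
  classical
  have h := hψ ((MM g x).det - 1) (Finset.mem_union_left _
    (Finset.mem_image_of_mem _ (Finset.mem_univ x)))
  rw [map_sub, map_one, sub_eq_zero, RingHom.map_det] at h
  exact h

/-- the images of the generators -/
noncomputable def NN' (x : Fin g ⊕ Fin g) : Matrix.SpecialLinearGroup (Fin 2) A :=
  ⟨(MM g x).map ψ, det_ok ψ hψ x⟩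

theorem rel_coe : ((List.ofFn fun i : Fin g => NN' ψ hψ (Sum.inl i) * NN' ψ hψ (Sum.inr i) *
    (NN' ψ hψ (Sum.inl i))⁻¹ * (NN' ψ hψ (Sum.inr i))⁻¹).prod).1 = (WW g).map ψ := by
  have h1 : (WW g).map ψ = (List.ofFn fun i : Fin g => (ψ.mapMatrix (MM g (Sum.inl i))) *
      (ψ.mapMatrix (MM g (Sum.inr i))) * (ψ.mapMatrix (MM g (Sum.inl i))).adjugate *
      (ψ.mapMatrix (MM g (Sum.inr i))).adjugate).prod := by
    change ψ.mapMatrix (WW g) = _
    rw [WW, map_list_prod, List.map_ofFn]
    congr 2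
    ext1 i
    simp only [Function.comp_apply, map_mul, RingHom.map_adjugate]
  rw [h1]
  have h2 : ∀ l : List (Matrix.SpecialLinearGroup (Fin 2) A),
      (l.prod).1 = (l.map fun N => N.1).prod := by
    intro l
    induction l with
    | nil => rfl
    | cons a l ih => rw [List.prod_cons, List.map_cons, List.prod_cons, ← ih]; rfl
  rw [h2, List.map_ofFn]
  congr 2

theorem rel_ok : (List.ofFn fun i : Fin g => NN' ψ hψ (Sum.inl i) * NN' ψ hψ (Sum.inr i) *
    (NN' ψ hψ (Sum.inl i))⁻¹ * (NN' ψ hψ (Sum.inr i))⁻¹).prod = 1 := by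
  classical
  have h := rel_coe ψ hψ
  generalize (List.ofFn fun i : Fin g => NN' ψ hψ (Sum.inl i) * NN' ψ hψ (Sum.inr i) *
    (NN' ψ hψ (Sum.inl i))⁻¹ * (NN' ψ hψ (Sum.inr i))⁻¹).prod = N at h
  have e01 : N.1 0 1 = 0 := by
    rw [h]
    exact hψ (WW g 0 1) (Finset.mem_union_right _ (by simp))
  have e10 : N.1 1 0 = 0 := by
    rw [h]
    exact hψ (WW g 1 0) (Finset.mem_union_right _ (by simp))
  have e00 : N.1 0 0 = 1 := by
    rw [h]
    have := hψ (WW g 0 0 - 1) (Finset.mem_union_right _ (by simp))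
    rw [map_sub, map_one, sub_eq_zero] at this
    exact this
  have hd := N.2
  rw [Matrix.det_fin_two, e01, e10, e00, one_mul, mul_zero, sub_zero] at hd
  apply Subtype.ext
  ext i j
  fin_cases i <;> fin_cases j
  · exact e00
  · exact e01
  · exact e10
  · exact hd

/-- the representation defined by a solution of the equations -/
noncomputable def rep : SurfaceGroup g →* Matrix.SpecialLinearGroup (Fin 2) A :=
  sLift (NN' ψ hψ) (rel_ok ψ hψ)

theorem rep_gen (x : Fin g ⊕ Fin g) (a b : Fin 2) :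
    (rep ψ hψ (gen g x)).1 a b = ψ (X (num g (x, a, b))) := by
  rw [rep, sLift_gen]
  rfl

end hom

/-- the homomorphism onto the universal ring -/
noncomputable def phi (g : ℕ) : RG g →ₐ[ZMod 2] SR 2 (SurfaceGroup g) :=
  aeval fun i => (SR.rho 2 (SurfaceGroup g) (gen g ((num g).symm i).1)).1
    ((num g).symm i).2.1 ((num g).symm i).2.2

theorem phi_X (x : Fin g ⊕ Fin g) (a b : Fin 2) :
    phi g (X (num g (x, a, b))) = (SR.rho 2 (SurfaceGroup g) (gen g x)).1 a b := by
  rw [phi, aeval_X, Equiv.symm_apply_apply]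

theorem phi_MM (x : Fin g ⊕ Fin g) :
    (MM g x).map (phi g) = (SR.rho 2 (SurfaceGroup g) (gen g x)).1 := by
  ext a b
  exact phi_X x a b

theorem phi_surjective (g : ℕ) : Function.Surjective (phi g) := by
  rw [← AlgHom.range_eq_top, eq_top_iff, ← SR.adjoin_rho, Algebra.adjoin_le_iff]
  have key : ∀ γ : SurfaceGroup g, ∀ i j, (SR.rho 2 (SurfaceGroup g) γ).1 i j ∈ (phi g).range := by
    intro γ
    have hγ : γ ∈ Subgroup.closure (Set.range (gen g)) := by
      rw [closure_gen]
      exact Subgroup.mem_top γ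
    induction hγ using Subgroup.closure_induction with
    | mem x hx =>
      obtain ⟨x, rfl⟩ := hx
      intro i j
      exact ⟨_, phi_X x i j⟩
    | one =>
      intro i j
      rw [map_one, Matrix.SpecialLinearGroup.coe_one, Matrix.one_apply]
      split_ifs
      · exact one_mem _
      · exact zero_mem _
    | mul x y _ _ hx hy =>
      intro i j
      rw [map_mul, Matrix.SpecialLinearGroup.coe_mul, Matrix.mul_apply]
      exact sum_mem fun k _ => mul_mem (hx i k) (hy k j)
    | inv x _ hx =>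
      intro i j
      rw [map_inv, Matrix.SpecialLinearGroup.coe_inv, Matrix.adjugate_fin_two]
      fin_cases i <;> fin_cases j
      · exact hx 1 1
      · exact neg_mem (hx 0 1)
      · exact neg_mem (hx 1 0)
      · exact hx 0 0
  rintro _ ⟨γ, i, j, rfl⟩
  exact key γ i j

theorem phi_WW (g : ℕ) : (WW g).map (phi g) = 1 := by
  have h1 : (WW g).map (phi g) = (List.ofFn fun i : Fin g =>
      ((phi g : RG g →+* SR 2 (SurfaceGroup g)).mapMatrix (MM g (Sum.inl i))) *
      ((phi g : RG g →+* SR 2 (SurfaceGroup g)).mapMatrix (MM g (Sum.inr i))) *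
      ((phi g : RG g →+* SR 2 (SurfaceGroup g)).mapMatrix (MM g (Sum.inl i))).adjugate *
      ((phi g : RG g →+* SR 2 (SurfaceGroup g)).mapMatrix (MM g (Sum.inr i))).adjugate).prod := by
    change (phi g : RG g →+* SR 2 (SurfaceGroup g)).mapMatrix (WW g) = _
    rw [WW, map_list_prod, List.map_ofFn]
    congr 2
    ext1 i
    simp only [Function.comp_apply, map_mul, RingHom.map_adjugate]
  rw [h1]
  have h3 : ∀ x, (phi g : RG g →+* SR 2 (SurfaceGroup g)).mapMatrix (MM g x) = (SR.rho 2 (SurfaceGroup g) (gen g x)).1 :=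
    fun x => phi_MM x
  simp only [h3]
  have h4 := congrArg (fun γ => (SR.rho 2 (SurfaceGroup g) γ).1) (gen_rel g)
  simp only [map_one, map_list_prod, List.map_ofFn] at h4
  rw [Matrix.SpecialLinearGroup.coe_one] at h4
  rw [← h4]
  have h2 : ∀ l : List (Matrix.SpecialLinearGroup (Fin 2) (SR 2 (SurfaceGroup g))),
      (l.prod).1 = (l.map fun N => N.1).prod := by
    intro l
    induction l with
    | nil => rfl
    | cons a l ih => rw [List.prod_cons, List.map_cons, List.prod_cons, ← ih]; rfl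
  rw [h2, List.map_ofFn]
  congr 2
  ext1 i
  simp only [Function.comp_apply, map_mul, map_inv, Matrix.SpecialLinearGroup.coe_mul,
    Matrix.SpecialLinearGroup.coe_inv]

theorem phi_eqs (f : RG g) (hf : f ∈ eqs g) : phi g f = 0 := by
  classical
  rcases Finset.mem_union.1 hf with hf | hf
  · obtain ⟨x, -, rfl⟩ := Finset.mem_image.1 hf
    have h1 : phi g (MM g x).det = 1 := by
      rw [AlgHom.map_det]
      change ((MM g x).map (phi g)).det = 1
      rw [phi_MM]
      exact (SR.rho 2 (SurfaceGroup g) (gen g x)).2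
    rw [map_sub, map_one, h1, sub_self]
  · have h2 : ∀ i j, phi g (WW g i j) = (1 : Matrix (Fin 2) (Fin 2) _) i j := fun i j => by
      rw [← phi_WW g]
      rfl
    simp only [Finset.mem_insert, Finset.mem_singleton] at hf
    rcases hf with rfl | rfl | rfl
    · rw [h2]; simp
    · rw [h2]; simp
    · rw [map_sub, map_one, h2]; simp

theorem phi_ker (Q : Ideal (RG g)) (hQ : ∀ f ∈ eqs g, f ∈ Q) (x : RG g) (hx : phi g x = 0) :
    x ∈ Q := by
  have h1 : ∀ f ∈ eqs g, Ideal.Quotient.mk Q f = 0 := fun f hf =>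
    Ideal.Quotient.eq_zero_iff_mem.2 (hQ f hf)
  let r := rep (Ideal.Quotient.mk Q) h1
  have h2 : (SR.lift (p := 2) r).comp (phi g) = Ideal.Quotient.mkₐ (ZMod 2) Q := by
    apply MvPolynomial.algHom_ext
    intro i
    obtain ⟨⟨y, a, b⟩, rfl⟩ := (num g).surjective i
    rw [AlgHom.comp_apply, phi_X, SR.lift_rho]
    exact rep_gen _ h1 y a b
  have h3 := congrArg (fun F => F x) h2
  rw [← Ideal.Quotient.eq_zero_iff_mem]
  change Ideal.Quotient.mkₐ (ZMod 2) Q x = 0
  rw [← h2, AlgHom.comp_apply, hx, map_zero]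

end eqs

end Pool.Agent.SuPts
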