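import Pool.Agent.Lib.MP_305fdd_al.LW.Main
import Pool.Agent.Lib.MP_305fdd_al.Su.Pts.Kd

/-!
# MP_305fdd_al, surface groups, block PTS: a ring with few points has only one minimal prime
-/

set_option autoImplicit false

namespace Pool.Agent.SuPts

open MvPolynomial Pool.Agent.Lib.MP_305fdd_al.LW

/-- algebraically independent elements from an injective homomorphism of a polynomial ring -/
theorem exists_indep {p : ℕ} [Fact p.Prime] {B : Type} [CommRing B] [Algebra (ZMod p) B] {d D : ℕ}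
    (h : MvPolynomial (Fin d) (ZMod p) →ₐ[ZMod p] B) (hh : Function.Injective h) (hD : D ≤ d) :
    ∃ s : Fin D → B, AlgebraicIndependent (ZMod p) s := by
  refine ⟨fun i => h (X (Fin.castLE hD i)), ?_⟩
  have h1 : aeval (fun i => h (X (Fin.castLE hD i))) =
      h.comp (rename (Fin.castLE hD)) := by
    ext i
    simp
  rw [AlgebraicIndependent, h1]
  exact hh.comp (rename_injective _ (Fin.castLE_injective hD))

/-- many points of the quotient by a prime at which `b` does not vanish -/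
theorem many_points {p : ℕ} [Fact p.Prime] (HD : DomainStatement) {S : Type} [CommRing S]
    [Algebra (ZMod p) S] [Algebra.FiniteType (ZMod p) S] {D : ℕ} (P : Ideal S) [P.IsPrime]
    (s : Fin D → S ⧸ P) (hs : AlgebraicIndependent (ZMod p) s) (b : S) (hb : b ∉ P) :
    ∃ r C : ℕ, 0 < r ∧ ∀ (E : Type) [Field E] [Finite E] [Algebra (ZMod p) E],
      r ∣ Module.finrank (ZMod p) E → ∀ Q : ℕ, Nat.card E = Q ^ 2 →
      Nat.card E ^ (D + 1) ≤
        Nat.card E * Nat.card {ψ : S →ₐ[ZMod p] E // (∀ x ∈ P, ψ x = 0) ∧ ψ b ≠ 0} +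
          C * Q * Nat.card E ^ D := by
  have hb' : Ideal.Quotient.mk P b ≠ 0 := fun h => hb (Ideal.Quotient.eq_zero_iff_mem.1 h)
  obtain ⟨F₁, _, _, _, C, hC⟩ := HD (ZMod p) (S ⧸ P) (Ideal.Quotient.mk P b) hb' s hs
  have hfin₁ : Module.Finite (ZMod p) F₁ := Module.Finite.of_finite
  refine ⟨Module.finrank (ZMod p) F₁, C, Module.finrank_pos, ?_⟩
  intro E _ _ _ hdvd Q hQ
  obtain ⟨j⟩ := FiniteField.nonempty_algHom_of_finrank_dvd hdvd
  have h1 := hC E ⟨j⟩ Q hQ
  rw [Fintype.card_fin] at h1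
  have hfin : Finite {ψ : S →ₐ[ZMod p] E // (∀ x ∈ P, ψ x = 0) ∧ ψ b ≠ 0} := by
    obtain ⟨G, hG⟩ := (Algebra.FiniteType.out : (⊤ : Subalgebra (ZMod p) S).FG)
    refine Finite.of_injective (fun ψ => fun g : G => ψ.1 g) ?_
    intro ψ ψ' h
    apply Subtype.ext
    refine AlgHom.ext_of_adjoin_eq_top hG ?_
    intro x hx
    exact congrFun h ⟨x, hx⟩
  have h3 : Nat.card {ψ : (S ⧸ P) →ₐ[ZMod p] E // ψ (Ideal.Quotient.mk P b) ≠ 0} ≤
      Nat.card {ψ : S →ₐ[ZMod p] E // (∀ x ∈ P, ψ x = 0) ∧ ψ b ≠ 0} := by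
    refine Nat.card_le_card_of_injective
      (fun ψ => ⟨ψ.1.comp (Ideal.Quotient.mkₐ (ZMod p) P), fun x hx => ?_, ψ.2⟩) ?_
    · change ψ.1 (Ideal.Quotient.mk P x) = 0
      rw [Ideal.Quotient.eq_zero_iff_mem.2 hx, map_zero]
    rintro ⟨ψ, hψ⟩ ⟨ψ', hψ'⟩ heq
    apply Subtype.ext
    have h4 : ψ.comp (Ideal.Quotient.mkₐ (ZMod p) P) = ψ'.comp (Ideal.Quotient.mkₐ (ZMod p) P) :=
      congrArg Subtype.val heq
    exact Ideal.Quotient.algHom_ext _ h4
  exact h1.trans (Nat.add_le_add_right (Nat.mul_le_mul_left _ h3) _)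

/-- a ring with at most `q ^ D + O (q ^ (D - 1))` points over the field with `q` elements has only one
prime of dimension at least `D` -/
theorem le_of_count {p : ℕ} [Fact p.Prime] (HD : DomainStatement) {S : Type} [CommRing S]
    [Algebra (ZMod p) S] [Algebra.FiniteType (ZMod p) S] {D C₀ : ℕ}
    (hcount : ∀ (E : Type) [Field E] [Finite E] [Algebra (ZMod p) E],
      Nat.card E * Nat.card (S →ₐ[ZMod p] E) ≤ Nat.card E ^ (D + 1) + C₀ * Nat.card E ^ D)
    (P P' : Ideal S) [P.IsPrime] [P'.IsPrime] (s : Fin D → S ⧸ P)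
    (hs : AlgebraicIndependent (ZMod p) s) (s' : Fin D → S ⧸ P')
    (hs' : AlgebraicIndependent (ZMod p) s') : P' ≤ P := by
  by_contra hcon
  obtain ⟨b, hb', hb⟩ := SetLike.not_le_iff_exists.1 hcon
  obtain ⟨r, C, hr, H⟩ := many_points HD P s hs b hb
  obtain ⟨r', C', hr', H'⟩ := many_points HD P' s' hs' 1
    ((Ideal.ne_top_iff_one P').1 (Ideal.IsPrime.ne_top inferInstance))
  have hp : p.Prime := Fact.out
  -- a large finite field
  let e := r * r' * (C + C' + C₀ + 1)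
  have he : 0 < e := by positivity
  let E := GaloisField p (e * 2)
  have hcard : Nat.card E = (p ^ e) ^ 2 := by
    rw [← pow_mul]
    exact GaloisField.card p (e * 2) (by positivity)
  have hfinE : Finite E := Nat.finite_of_card_ne_zero (by
    rw [hcard]
    have := hp.pos
    positivity)
  have hrank : Module.finrank (ZMod p) E = e * 2 := GaloisField.finrank p (by positivity)
  have h1 := H E (by
    rw [hrank]
    exact ⟨r' * (C + C' + C₀ + 1) * 2, by simp only [e]; ring⟩) (p ^ e) hcard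
  have h2 := H' E (by
    rw [hrank]
    exact ⟨r * (C + C' + C₀ + 1) * 2, by simp only [e]; ring⟩) (p ^ e) hcard
  have h3 := hcount E
  have hfin : Finite (S →ₐ[ZMod p] E) := by
    obtain ⟨G, hG⟩ := (Algebra.FiniteType.out : (⊤ : Subalgebra (ZMod p) S).FG)
    refine Finite.of_injective (fun ψ => fun g : G => ψ g) ?_
    intro ψ ψ' h
    refine AlgHom.ext_of_adjoin_eq_top hG ?_
    intro x hx
    exact congrFun h ⟨x, hx⟩
  -- the two sets of points are disjoint
  have h4 : Nat.card {ψ : S →ₐ[ZMod p] E // (∀ x ∈ P, ψ x = 0) ∧ ψ b ≠ 0} +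
      Nat.card {ψ : S →ₐ[ZMod p] E // (∀ x ∈ P', ψ x = 0) ∧ ψ 1 ≠ 0} ≤
      Nat.card (S →ₐ[ZMod p] E) := by
    rw [← Nat.card_sum]
    refine Nat.card_le_card_of_injective (Sum.elim Subtype.val Subtype.val) ?_
    rintro (⟨ψ, hψ⟩ | ⟨ψ, hψ⟩) (⟨ψ', hψ'⟩ | ⟨ψ', hψ'⟩) heq
    · exact congrArg Sum.inl (Subtype.ext heq)
    · exact (hψ.2 (by
        have : ψ = ψ' := heq
        rw [this]
        exact hψ'.1 b hb')).elim
    · exact (hψ'.2 (by
        have : ψ = ψ' := heq
        rw [← this]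
        exact hψ.1 b hb')).elim
    · exact congrArg Sum.inr (Subtype.ext heq)
  set q := Nat.card E with hq
  set Q := p ^ e with hQdef
  set a := Nat.card {ψ : S →ₐ[ZMod p] E // (∀ x ∈ P, ψ x = 0) ∧ ψ b ≠ 0}
  set a' := Nat.card {ψ : S →ₐ[ZMod p] E // (∀ x ∈ P', ψ x = 0) ∧ ψ 1 ≠ 0}
  have hq0 : 0 < q := Nat.card_pos
  have hqD : 0 < q ^ D := pow_pos hq0 D
  have hQ0 : 0 < Q := pow_pos hp.pos e
  have h5 : q * (a + a') ≤ q ^ (D + 1) + C₀ * q ^ D := (Nat.mul_le_mul_left _ h4).trans h3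
  have h6 : q ^ D * q ≤ q ^ D * ((C + C' + C₀) * Q) := by
    have e1 : q ^ (D + 1) = q * q ^ D := by rw [pow_succ, mul_comm]
    rw [e1] at h1 h2 h5
    have e2 : q * (a + a') = q * a + q * a' := mul_add _ _ _
    rw [e2] at h5
    have e3 : q ^ D * ((C + C' + C₀) * Q) =
        C * Q * q ^ D + C' * Q * q ^ D + C₀ * Q * q ^ D := by ring
    have e4 : q ^ D * q = q * q ^ D := mul_comm _ _
    have e5 : C₀ * q ^ D ≤ C₀ * Q * q ^ D := by
      calc C₀ * q ^ D = C₀ * 1 * q ^ D := by ring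
        _ ≤ C₀ * Q * q ^ D := Nat.mul_le_mul_right _ (Nat.mul_le_mul_left _ hQ0)
    rw [e3, e4]
    omega
  have h7 : q ≤ (C + C' + C₀) * Q := Nat.le_of_mul_le_mul_left h6 hqD
  rw [hcard, pow_two] at h7
  have h8 : Q ≤ C + C' + C₀ := Nat.le_of_mul_le_mul_right h7 hQ0
  have h9 : C + C' + C₀ + 1 ≤ e := by
    have : 1 ≤ r * r' := Nat.mul_pos hr hr'
    calc C + C' + C₀ + 1 = 1 * (C + C' + C₀ + 1) := (one_mul _).symm
      _ ≤ r * r' * (C + C' + C₀ + 1) := Nat.mul_le_mul_right _ this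
  have h10 : e < Q := Nat.lt_pow_self hp.one_lt
  omega

/-- a quotient of a polynomial ring in `c + D` variables by an ideal with `c` generators (up to
radicals) which has few points has only one minimal prime -/
theorem minimal_unique {p : ℕ} [Fact p.Prime] (HD : DomainStatement) {S : Type} [CommRing S]
    [Algebra (ZMod p) S] {n c D C₀ : ℕ} (hn : n = c + D)
    (φ : MvPolynomial (Fin n) (ZMod p) →ₐ[ZMod p] S) (hφ : Function.Surjective φ)
    (s : Finset (MvPolynomial (Fin n) (ZMod p))) (hs : s.card ≤ c) (hsφ : ∀ f ∈ s, φ f = 0)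
    (hker : ∀ Q : Ideal (MvPolynomial (Fin n) (ZMod p)), Q.IsPrime → (∀ f ∈ s, f ∈ Q) →
      ∀ x, φ x = 0 → x ∈ Q)
    (hcount : ∀ (E : Type) [Field E] [Finite E] [Algebra (ZMod p) E],
      Nat.card E * Nat.card (S →ₐ[ZMod p] E) ≤ Nat.card E ^ (D + 1) + C₀ * Nat.card E ^ D)
    (P P' : Ideal S) (hP : P ∈ minimalPrimes S) (hP' : P' ∈ minimalPrimes S) : P = P' := by
  have hft : Algebra.FiniteType (ZMod p) S := Algebra.FiniteType.of_surjective φ hφ
  have hPp : P.IsPrime := hP.1.1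
  have hPp' : P'.IsPrime := hP'.1.1
  have key : ∀ P : Ideal S, P ∈ minimalPrimes S → ∃ t : Fin D → S ⧸ P,
      AlgebraicIndependent (ZMod p) t := by
    intro P hP
    have hPp : P.IsPrime := hP.1.1
    have hQ : P.comap φ ∈ (Ideal.span (s : Set (MvPolynomial (Fin n) (ZMod p)))).minimalPrimes := by
      refine ⟨⟨inferInstance, Ideal.span_le.2 fun f hf => ?_⟩, ?_⟩
      · rw [SetLike.mem_coe, Ideal.mem_comap, hsφ f hf]
        exact P.zero_mem
      · rintro Q ⟨hQ, hsQ⟩ hQP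
        have h1 := hker Q hQ (fun x hx => hsQ (Ideal.subset_span hx))
        have h2 : (Q.map (φ : MvPolynomial (Fin n) (ZMod p) →+* S)).IsPrime :=
          Ideal.map_isPrime_of_surjective hφ fun x hx => h1 x hx
        have h3 : Q.map (φ : MvPolynomial (Fin n) (ZMod p) →+* S) ≤ P :=
          Ideal.map_le_iff_le_comap.2 hQP
        have h4 : P ≤ Q.map (φ : MvPolynomial (Fin n) (ZMod p) →+* S) := hP.2 ⟨h2, bot_le⟩ h3
        intro x hx
        obtain ⟨y, hy, hyx⟩ := (Ideal.mem_map_iff_of_surjective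
          (φ : MvPolynomial (Fin n) (ZMod p) →+* S) hφ).1 (h4 hx)
        have h5 : x - y ∈ Q := h1 _ (by rw [map_sub, sub_eq_zero]; exact hyx.symm)
        have := Q.add_mem h5 hy
        rwa [sub_add_cancel] at this
    obtain ⟨d, g, hd, hg⟩ := kd (ZMod p) s hs hQ
    let h : (MvPolynomial (Fin n) (ZMod p) ⧸ P.comap φ) →ₐ[ZMod p] S ⧸ P :=
      Ideal.quotientMapₐ P φ le_rfl
    have hh : Function.Injective h := Ideal.quotientMap_injective
    exact exists_indep (h.comp g) (hh.comp hg) (by omega)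
  obtain ⟨t, ht⟩ := key P hP
  obtain ⟨t', ht'⟩ := key P' hP'
  exact le_antisymm (le_of_count HD hcount P' P t' ht' t ht) (le_of_count HD hcount P P' t ht t' ht')

end Pool.Agent.SuPts
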